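import Mathlib
import Pool.Agent.W941.UL.AtrAB
import Pool.Agent.W941.BM.Fin

/-!
`ATR₀` proves both test statements (a) and (b) for all countable torsion abelian groups, reduced
or not, and `ATR₀` together with (a) and (b) does not prove `Π¹₁` comprehension. So neither
statement is equivalent to `Π¹₁-CA₀` over `RCA₀`.
-/

namespace Pool.Agent.Results.MP_660a49_lc.UlmTestsBelowPi11

open Pool.Agent.Helper617.RM Pool.Agent.Helper317.Atr Pool.Agent.W941.UL Pool.Agent.W941.BM

universe u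

theorem result : (∀ N : L2Structure.{u}, IsModelATR0 N → StmtA N ∧ StmtB N) ∧
    ∃ N : L2Structure.{0}, IsModelRCA0 N ∧ IsModelATR0 N ∧ StmtA N ∧ StmtB N ∧ ¬ Pi11Comp N := by
  refine ⟨fun _ h => atr_ab h, ?_⟩
  obtain ⟨N, h1, h2⟩ := atr_not_pi
  obtain ⟨h3, h4⟩ := atr_ab h1
  exact ⟨N, h1.rca, h1, h3, h4, h2⟩

end Pool.Agent.Results.MP_660a49_lc.UlmTestsBelowPi11
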